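import Mathlib

/-!
# MP_5ff22d_lc, Q1 (disproved): `=_∼` is not preserved by multiplication

A nonstandard extension is given here by its restriction to the finitary relations and functions
on `ℕ`: an elementary extension `j : ℕ ↪ₑ[LN] Y` in the full language `LN` of `ℕ` (one symbol for
every finitary relation and every finitary function on `ℕ`).  Each nonstandard extension of the
superstructure over `ℕ` gives such a `j` (transfer of the formulas of the full language).
In **every** proper extension the implication fails, and proper extensions exist.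
-/

set_option autoImplicit false

open FirstOrder FirstOrder.Language FirstOrder.Language.Structure

namespace Pool.Agent.Results.MP_5ff22d_lc.NotCongruence

/-- The full language of `ℕ`: a symbol for every finitary function and relation on `ℕ`. -/
def LN : FirstOrder.Language.{0, 0} :=
  ⟨fun n => (Fin n → ℕ) → ℕ, fun n => (Fin n → ℕ) → Prop⟩

/-- The tautological `LN`-structure on `ℕ`. -/
instance : LN.Structure ℕ where
  funMap := fun {_} f x => f x
  RelMap := fun {_} R x => R x

/-- the symbol of a subset of `ℕ` -/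
def relS (S : Set ℕ) : LN.Relations 1 := fun x : Fin 1 → ℕ => x 0 ∈ S

/-- the symbol of a unary function -/
def funS (f : ℕ → ℕ) : LN.Functions 1 := fun x : Fin 1 → ℕ => f (x 0)

/-- the symbol of multiplication -/
def mulS : LN.Functions 2 := fun x : Fin 2 → ℕ => x 0 * x 1

/-- the symbol of a constant -/
def constS (k : ℕ) : LN.Constants := fun _ : Fin 0 → ℕ => k

section

variable {Y : Type*} [LN.Structure Y]

/-- The star-image of `S ⊆ ℕ`. -/
def star (Y : Type*) [LN.Structure Y] (S : Set ℕ) : Set Y := {y | RelMap (relS S) ![y]}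

/-- The product in `Y` (the star-extension of multiplication). -/
def mulY (x y : Y) : Y := funMap mulS ![x, y]

/-- `v(x) = {S ⊆ ℕ : x ∈ *S}`. -/
def v (x : Y) : Set (Set ℕ) := {S | x ∈ star Y S}

end

/-- `𝒰`: the subsets of `ℕ` which are upward closed for divisibility. -/
def UpClosed (A : Set ℕ) : Prop := ∀ a ∈ A, ∀ n, a ∣ n → n ∈ A

/-- `F ∣~ G`: `F ∩ 𝒰 ⊆ G`. -/
def DivT (F G : Set (Set ℕ)) : Prop := ∀ A, UpClosed A → A ∈ F → A ∈ G

/-- `F =_∼ G`. -/
def EqT (F G : Set (Set ℕ)) : Prop := DivT F G ∧ DivT G F

section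

variable {Y : Type*} [LN.Structure Y] (j : ℕ ↪ₑ[LN] Y)

include j

theorem transfer_pre (f : ℕ → ℕ) (S : Set ℕ) (y : Y) :
    funMap (funS f) ![y] ∈ star Y S ↔ y ∈ star Y (f ⁻¹' S) := by
  let φ : LN.Sentence := ((relS S).boundedFormula₁ ((funS f).apply₁ (&0))).iff
    ((relS (f ⁻¹' S)).boundedFormula₁ (&0)) |>.all
  have h1 : ℕ ⊨ φ := by
    simp only [φ, Sentence.Realize, Formula.Realize, BoundedFormula.realize_all,
      BoundedFormula.realize_iff, BoundedFormula.realize_rel₁, Term.realize_functions_apply₁]
    intro a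
    exact Iff.rfl
  have h2 := (j.map_sentence φ).1 h1
  simp only [φ, Sentence.Realize, Formula.Realize, BoundedFormula.realize_all,
      BoundedFormula.realize_iff, BoundedFormula.realize_rel₁, Term.realize_functions_apply₁] at h2
  exact h2 y

theorem transfer_mul (f g : ℕ → ℕ) (y : Y) :
    mulY (funMap (funS f) ![y]) (funMap (funS g) ![y]) =
      funMap (funS fun n => f n * g n) ![y] := by
  let φ : LN.Sentence := (mulS.apply₂ ((funS f).apply₁ (&0)) ((funS g).apply₁ (&0)) =' 
    (funS fun n => f n * g n).apply₁ (&0)) |>.all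
  have h1 : ℕ ⊨ φ := by
    simp only [φ, Sentence.Realize, Formula.Realize, BoundedFormula.realize_all,
      BoundedFormula.realize_bdEqual, Term.realize_functions_apply₁,
      Term.realize_functions_apply₂]
    intro a
    rfl
  have h2 := (j.map_sentence φ).1 h1
  simp only [φ, Sentence.Realize, Formula.Realize, BoundedFormula.realize_all,
      BoundedFormula.realize_bdEqual, Term.realize_functions_apply₁,
      Term.realize_functions_apply₂] at h2
  exact h2 y

theorem star_mono {A B : Set ℕ} (h : A ⊆ B) (y : Y) (hy : y ∈ star Y A) : y ∈ star Y B := by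
  let φ : LN.Sentence := ((relS A).boundedFormula₁ (&0)).imp
    ((relS B).boundedFormula₁ (&0)) |>.all
  have h1 : ℕ ⊨ φ := by
    simp only [φ, Sentence.Realize, Formula.Realize, BoundedFormula.realize_all,
      BoundedFormula.realize_imp, BoundedFormula.realize_rel₁]
    intro a ha
    exact h ha
  have h2 := (j.map_sentence φ).1 h1
  simp only [φ, Sentence.Realize, Formula.Realize, BoundedFormula.realize_all,
      BoundedFormula.realize_imp, BoundedFormula.realize_rel₁] at h2
  exact h2 y hy

theorem star_empty (y : Y) (hy : y ∈ star Y ∅) : False := by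
  let φ : LN.Sentence := ((relS ∅).boundedFormula₁ (&0)).not |>.all
  have h1 : ℕ ⊨ φ := by
    simp only [φ, Sentence.Realize, Formula.Realize, BoundedFormula.realize_all,
      BoundedFormula.realize_not, BoundedFormula.realize_rel₁]
    intro a ha
    exact ha
  have h2 := (j.map_sentence φ).1 h1
  simp only [φ, Sentence.Realize, Formula.Realize, BoundedFormula.realize_all,
      BoundedFormula.realize_not, BoundedFormula.realize_rel₁] at h2
  exact h2 y hy

theorem star_univ (y : Y) : y ∈ star Y Set.univ := by
  let φ : LN.Sentence := ((relS Set.univ).boundedFormula₁ (&0)) |>.all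
  have h1 : ℕ ⊨ φ := by
    simp only [φ, Sentence.Realize, Formula.Realize, BoundedFormula.realize_all,
      BoundedFormula.realize_rel₁]
    intro a
    trivial
  have h2 := (j.map_sentence φ).1 h1
  simp only [φ, Sentence.Realize, Formula.Realize, BoundedFormula.realize_all,
      BoundedFormula.realize_rel₁] at h2
  exact h2 y

theorem star_Ici (y : Y) (hy : y ∉ Set.range j) (k : ℕ) : y ∈ star Y (Set.Ici k) := by
  induction k with
  | zero =>
    have : (Set.Ici 0 : Set ℕ) = Set.univ := by ext; simp
    rw [this]
    exact star_univ j y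
  | succ k ih =>
    let φ : LN.Sentence := ((relS (Set.Ici k)).boundedFormula₁ (&0)).imp
      (((relS (Set.Ici (k + 1))).boundedFormula₁ (&0)) ⊔ ((&0) =' (constS k).term)) |>.all
    have h1 : ℕ ⊨ φ := by
      simp only [φ, Sentence.Realize, Formula.Realize, BoundedFormula.realize_all,
        BoundedFormula.realize_imp, BoundedFormula.realize_rel₁, BoundedFormula.realize_sup,
        BoundedFormula.realize_bdEqual, Term.realize_constants]
      intro a ha
      have ha' : k ≤ a := ha
      rcases ha'.lt_or_eq with h | h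
      · exact Or.inl (show k + 1 ≤ a from h)
      · exact Or.inr h.symm
    have h2 := (j.map_sentence φ).1 h1
    simp only [φ, Sentence.Realize, Formula.Realize, BoundedFormula.realize_all,
        BoundedFormula.realize_imp, BoundedFormula.realize_rel₁, BoundedFormula.realize_sup,
        BoundedFormula.realize_bdEqual, Term.realize_constants] at h2
    rcases h2 y ih with h | h
    · exact h
    · exfalso
      apply hy
      refine ⟨k, ?_⟩
      have h3 : j k = ((constS k : LN.Constants) : Y) := by
        have := j.map_constants (constS k)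
        exact this
      rw [h3]
      exact h.symm

theorem main (hj : ¬ Function.Surjective j) :
    ∃ x y z : Y, EqT (v x) (v y) ∧ ¬ EqT (v (mulY x z)) (v (mulY y z)) := by
  have h0 : ∃ w : Y, w ∉ Set.range j := by
    by_contra hcon
    push Not at hcon
    exact hj hcon
  obtain ⟨w, hw⟩ := h0
  have hp : ∀ n : ℕ, ∃ p, n + 3 ≤ p ∧ p.Prime := fun n => Nat.exists_infinite_primes (n + 3)
  choose p hp1 hp2 using hp
  let X : Y := funMap (funS fun n => 2 ^ p n) ![w]
  let X' : Y := funMap (funS fun n => 2 ^ (p n - 1)) ![w]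
  let Z : Y := funMap (funS fun n => p n) ![w]
  -- both `X` and `X'` are in `*U` iff `U` contains a power of two
  have key : ∀ (e : ℕ → ℕ), (∀ n, n ≤ e n) → ∀ U, UpClosed U →
      (U ∈ v (funMap (funS fun n => 2 ^ e n) ![w] : Y) ↔ ∃ k, 2 ^ k ∈ U) := by
    intro e he U hU
    show (funMap (funS fun n => 2 ^ e n) ![w] ∈ star Y U ↔ _)
    rw [transfer_pre j]
    constructor
    · intro h
      by_contra hcon
      push Not at hcon
      have : (fun n => 2 ^ e n) ⁻¹' U = ∅ := by
        ext n
        simp only [Set.mem_preimage, Set.mem_empty_iff_false, iff_false]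
        exact hcon (e n)
      rw [this] at h
      exact star_empty j w h
    · rintro ⟨k, hk⟩
      refine star_mono j ?_ w (star_Ici j w hw k)
      intro n hn
      have hn' : k ≤ n := hn
      exact hU _ hk _ (pow_dvd_pow 2 (hn'.trans (he n)))
  refine ⟨X, X', Z, ?_, ?_⟩
  · have e1 := key p (fun n => by have := hp1 n; omega)
    have e2 := key (fun n => p n - 1) (fun n => by have := hp1 n; omega)
    exact ⟨fun U hU h => (e2 U hU).2 ((e1 U hU).1 h), fun U hU h => (e1 U hU).2 ((e2 U hU).1 h)⟩
  · intro h
    let U : Set ℕ := {m | ∃ q, q.Prime ∧ q ≠ 2 ∧ q ∣ m ∧ 2 ^ q ∣ m}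
    have hU : UpClosed U := by
      rintro a ⟨q, hq, hq2, h1, h2⟩ n han
      exact ⟨q, hq, hq2, h1.trans han, h2.trans han⟩
    have h1 : U ∈ v (mulY X Z) := by
      show mulY X Z ∈ star Y U
      rw [transfer_mul j, transfer_pre j]
      have : (fun n => 2 ^ p n * p n) ⁻¹' U = Set.univ := by
        ext n
        simp only [Set.mem_preimage, Set.mem_univ, iff_true]
        refine ⟨p n, hp2 n, ?_, dvd_mul_left _ _, dvd_mul_right _ _⟩
        have := hp1 n
        omega
      rw [this]
      exact star_univ j w
    have h2 := h.1 U hU h1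
    have h3 : mulY X' Z ∈ star Y U := h2
    rw [transfer_mul j, transfer_pre j] at h3
    have : (fun n => 2 ^ (p n - 1) * p n) ⁻¹' U = ∅ := by
      ext n
      simp only [Set.mem_preimage, Set.mem_empty_iff_false, iff_false]
      rintro ⟨q, hq, hq2, h4, h5⟩
      have hpn := hp1 n
      have h6 : q = p n := by
        rcases (Nat.Prime.dvd_mul hq).1 h4 with h | h
        · exact absurd ((Nat.prime_dvd_prime_iff_eq hq Nat.prime_two).1
            (hq.dvd_of_dvd_pow h)) hq2
        · exact (Nat.prime_dvd_prime_iff_eq hq (hp2 n)).1 h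
      rw [h6] at h5
      have hcop : Nat.Coprime (2 ^ p n) (p n) := by
        apply Nat.Coprime.pow_left
        rw [Nat.coprime_primes Nat.prime_two (hp2 n)]
        omega
      have h7 := hcop.dvd_of_dvd_mul_right h5
      have h8 := (Nat.pow_dvd_pow_iff_le_right (by norm_num : 1 < 2)).1 h7
      omega
    rw [this] at h3
    exact star_empty j w h3

end

theorem card_LN : LN.card ≤ Cardinal.continuum := by
  have h1 : ∀ n, Cardinal.mk (LN.Functions n) ≤ Cardinal.continuum := by
    intro n
    have : Cardinal.mk (LN.Functions n) = Cardinal.mk ((Fin n → ℕ) → ℕ) := rfl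
    rw [this]
    have hc : Cardinal.mk (Fin n → ℕ) ≤ Cardinal.aleph0 := Cardinal.mk_le_aleph0
    calc Cardinal.mk ((Fin n → ℕ) → ℕ) = Cardinal.mk ℕ ^ Cardinal.mk (Fin n → ℕ) := by
          rw [Cardinal.power_def]
      _ ≤ Cardinal.aleph0 ^ Cardinal.aleph0 := by
          rw [Cardinal.mk_nat]
          exact Cardinal.power_le_power_left Cardinal.aleph0_ne_zero hc
      _ = Cardinal.continuum := Cardinal.aleph0_power_aleph0
  have h2 : ∀ n, Cardinal.mk (LN.Relations n) ≤ Cardinal.continuum := by
    intro n
    have : Cardinal.mk (LN.Relations n) = Cardinal.mk (Set (Fin n → ℕ)) := rfl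
    rw [this, Cardinal.mk_set]
    exact Cardinal.power_le_power_left two_ne_zero Cardinal.mk_le_aleph0
  have h3 : LN.card = Cardinal.mk (Σ l, LN.Functions l) + Cardinal.mk (Σ l, LN.Relations l) := by
    simp [FirstOrder.Language.card_eq_card_functions_add_card_relations]
  rw [h3]
  have h4 : ∀ (F : ℕ → Type), (∀ n, Cardinal.mk (F n) ≤ Cardinal.continuum) →
      Cardinal.mk (Σ l, F l) ≤ Cardinal.continuum := by
    intro F hF
    rw [Cardinal.mk_sigma]
    refine (Cardinal.sum_le_sum _ (fun _ => Cardinal.continuum) hF).trans ?_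
    rw [Cardinal.sum_const]
    simp
  calc _ ≤ Cardinal.continuum + Cardinal.continuum := add_le_add (h4 _ h1) (h4 _ h2)
    _ = Cardinal.continuum := Cardinal.continuum_add_self

theorem exists_ext : ∃ (Y : Type) (_ : LN.Structure Y) (j : ℕ ↪ₑ[LN] Y),
    ¬ Function.Surjective j := by
  obtain ⟨N, ⟨j⟩, hN⟩ := FirstOrder.Language.exists_elementaryEmbedding_card_eq_of_ge LN ℕ
    Cardinal.continuum (by simpa using card_LN)
    (by simpa using Cardinal.aleph0_le_continuum)
  refine ⟨N, inferInstance, j, fun hs => ?_⟩
  have h1 : Cardinal.mk N ≤ Cardinal.mk ℕ := Cardinal.mk_le_of_surjective hs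
  rw [hN, Cardinal.mk_nat] at h1
  exact absurd h1 (not_le.2 Cardinal.aleph0_lt_continuum)

/-- **Q1 (disproved).** In every proper nonstandard extension there are `x, y, z` with
`v(x) =_∼ v(y)` and `v(xz) ≠_∼ v(yz)`; and proper nonstandard extensions exist. -/
theorem result :
    (∀ (Y : Type) [LN.Structure Y] (j : ℕ ↪ₑ[LN] Y), ¬ Function.Surjective j →
      ∃ x y z : Y, EqT (v x) (v y) ∧ ¬ EqT (v (mulY x z)) (v (mulY y z))) ∧
    ∃ (Y : Type) (_ : LN.Structure Y) (j : ℕ ↪ₑ[LN] Y), ¬ Function.Surjective j :=
  ⟨fun _ _ j hj => main j hj, exists_ext⟩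

end Pool.Agent.Results.MP_5ff22d_lc.NotCongruence
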